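import Pool.Agent.Helper9.TW.St

/-!
# Project TW, module C10 : the final sieve inequality
-/

set_option autoImplicit false

namespace Pool.Agent.Helper74.TW

open Finset Filter Topology
open Pool.Agent.Helper9.TW

theorem C10_growth (κ C c1 : ℝ) (hκ : 0 < κ) (hC : 0 < C) (hc : 0 < c1) :
    ∀ᶠ a : ℕ in atTop, C * (a : ℝ) ^ (1 - κ) ≤ c1 * a / Real.log a ^ 3 := by
  have h1 : (fun x : ℝ => Real.log x ^ (3 : ℝ)) =o[atTop] fun x : ℝ => x ^ κ :=
    isLittleO_log_rpow_rpow_atTop 3 hκ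
  have h2 := (h1.bound (show 0 < c1 / C by positivity))
  have h3 := tendsto_natCast_atTop_atTop (R := ℝ) |>.eventually h2
  filter_upwards [h3, eventually_ge_atTop 3] with a ha ha3
  have ha0 : (0 : ℝ) < a := by
    have : 0 < a := by omega
    exact_mod_cast this
  have hlog : 0 < Real.log a := Real.log_pos (by
    have : 1 < a := by omega
    exact_mod_cast this)
  have e1 : Real.log a ^ (3 : ℝ) = Real.log a ^ 3 := by
    rw [← Real.rpow_natCast]; norm_num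
  rw [e1, Real.norm_of_nonneg (by positivity), Real.norm_of_nonneg (by positivity)] at ha
  rw [le_div_iff₀ (by positivity), Real.rpow_sub ha0, Real.rpow_one]
  have hp : 0 < (a : ℝ) ^ κ := by positivity
  calc C * ((a : ℝ) / (a : ℝ) ^ κ) * Real.log a ^ 3
      ≤ C * ((a : ℝ) / (a : ℝ) ^ κ) * (c1 / C * (a : ℝ) ^ κ) := by gcongr
    _ = c1 * a := by field_simp

theorem Bb_card_ge (a : ℕ) (ha : 20 ≤ a) : (a : ℝ) / 5 ≤ ((Bb a).card : ℝ) := by
  unfold Bb
  rw [Nat.card_Ioc]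
  have h : a ≤ 5 * (a / 2 - a / 4) := by omega
  rw [div_le_iff₀ (by norm_num)]
  have h' : (a : ℝ) ≤ ((5 * (a / 2 - a / 4) : ℕ) : ℝ) := by exact_mod_cast h
  push_cast at h' ⊢
  linarith

theorem C10_main (V t0 t1 μm μp S0 ε δ m p s : ℝ) (hV0 : 0 ≤ V) (T1 : V ≤ t0)
    (T2 : t0 ≤ (1 + 1 / 1000) * V) (T3 : (1 - 1 / 1000) * V ≤ t1) (T4 : t1 ≤ V) (hμm : 0 ≤ μm)
    (hμp : 0 ≤ μp) (hS0 : 0 ≤ S0) (hε0 : 0 < ε) (hε : ε = δ / 6)
    (hδ : δ = μm - 2 / 1000 * μp - 1001 / 1000 * S0) (lm : μm - ε ≤ m) (lp : p ≤ μp + ε)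
    (lS : s ≤ S0 + ε) : V * (δ / 2) ≤ t0 * m - (t0 - t1) * p - t0 * s := by
  have hTH : 0 ≤ t0 := hV0.trans T1
  have hd : 0 ≤ t0 - t1 := by linarith
  have hd2 : t0 - t1 ≤ 2 / 1000 * V := by linarith
  have m1 : V * μm - 1001 / 1000 * V * ε ≤ t0 * m := by
    have h1 : t0 * (μm - ε) ≤ t0 * m := mul_le_mul_of_nonneg_left lm hTH
    have h2 : V * μm ≤ t0 * μm := mul_le_mul_of_nonneg_right T1 hμm
    have h3 : t0 * ε ≤ 1001 / 1000 * V * ε :=
      mul_le_mul_of_nonneg_right (by linarith) hε0.le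
    linarith
  have m2 : (t0 - t1) * p ≤ 2 / 1000 * V * (μp + ε) := by
    have h1 : (t0 - t1) * p ≤ (t0 - t1) * (μp + ε) := mul_le_mul_of_nonneg_left lp hd
    have h2 : (t0 - t1) * (μp + ε) ≤ 2 / 1000 * V * (μp + ε) :=
      mul_le_mul_of_nonneg_right hd2 (by positivity)
    linarith
  have m3 : t0 * s ≤ 1001 / 1000 * V * (S0 + ε) := by
    have h1 := mul_le_mul_of_nonneg_left lS hTH
    have h2 : t0 * (S0 + ε) ≤ 1001 / 1000 * V * (S0 + ε) :=
      mul_le_mul_of_nonneg_right (by linarith) (by positivity)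
    linarith
  have m4 : V * (δ / 2) = V * δ - 3 * (V * ε) := by rw [hε]; ring
  have m5 : V * δ = V * μm - 2 / 1000 * (V * μp) - 1001 / 1000 * (V * S0) := by
    rw [hδ]; ring
  have m6 : 0 ≤ V * ε := by positivity
  have m7 : 2 / 1000 * V * (μp + ε) = 2 / 1000 * (V * μp) + 2 / 1000 * (V * ε) := by ring
  have m8 : 1001 / 1000 * V * (S0 + ε) = 1001 / 1000 * (V * S0) + 1001 / 1000 * (V * ε) := by
    ring
  have m9 : 1001 / 1000 * V * ε = 1001 / 1000 * (V * ε) := by ring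
  linarith

theorem C10_fin (X t0 t1 m p s A B C D E Q Cs σ M c2 : ℝ)
    (e0 : -E ≤ A - X * t0 * m) (e1 : -E ≤ B - X * t1 * p) (e2 : C - X * t0 * p ≤ E)
    (e3 : D ≤ X * t0 * s + σ * E) (hCs : Cs = 3 + σ) (hgr : Cs * E ≤ c2)
    (hM : M ≤ X * (t0 * m - (t0 - t1) * p - t0 * s)) (hQ : Q = M - c2) :
    Q ≤ A + B - C - D := by
  have h1 : Cs * E = 3 * E + σ * E := by rw [hCs]; ring
  have h2 : X * (t0 * m - (t0 - t1) * p - t0 * s) =
      X * t0 * m - X * t0 * p + X * t1 * p - X * t0 * s := by ring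
  linarith

theorem hC10 (hFS : StFS) (hA : StCA) (hV : StVL) (h8 : StC8) (h9 : StC9) (hM : StMER)
    (hPO : StPOS) : StC10 := by
  obtain ⟨f, -, h8⟩ := h8
  obtain ⟨θ₁, hθ₁, hA⟩ := hA f
  obtain ⟨u, j0, hu, hj0, hj1, hθ, μm, μp, μ, hLo, hUp, hUj, hpos⟩ :=
    hFS (min θ₁ (1 / 100)) (lt_min hθ₁ (by norm_num)) (min_le_right _ _)
  obtain ⟨κ, hκ, hA1, hA2⟩ := hA u j0 hu hj0 hj1 (hθ.trans (min_le_left _ _))
  obtain ⟨c0, hc0, hV⟩ := hV
  have hu' : (0 : ℝ) < u := by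
    have : 0 < u := by omega
    exact_mod_cast this
  have hω : (0 : ℝ) < 1 / (4000 * (u : ℝ)) := by positivity
  have hμp : 0 ≤ μp := by
    refine hPO _ _ _ _ _ hω ?_ hUp
    push_cast
    rw [mul_one_div, div_le_iff₀ (by positivity)]
    linarith
  have hμj : ∀ j ∈ Ico (1123 * u) (3996 * u), 0 ≤ μ j := by
    intro j hj
    refine hPO _ _ _ _ _ hω ?_ (hUj j hj)
    rw [mul_one_div, div_le_iff₀ (by positivity)]
    have : ((4492 * u - (j + 1) : ℕ) : ℝ) ≤ ((4492 * u : ℕ) : ℝ) := by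
      exact_mod_cast Nat.sub_le _ _
    push_cast at this
    linarith
  obtain ⟨Tm, Bm, Lm, wm, dm, tm⟩ := hLo
  obtain ⟨Tp, Bp, Lp, wp, dp, tp⟩ := hUp
  unfold UpP at hUj
  choose! Tj Bj Lj wj dj tj using hUj
  set ω : ℝ := 1 / (4000 * (u : ℝ)) with hωd
  set θ : ℝ := (j0 : ℝ) * ω with hθd
  have hθ0 : 0 < θ := by
    rw [hθd]
    have : (0 : ℝ) < j0 := by
      have : 0 < j0 := by omega
      exact_mod_cast this
    positivity
  have hθ1 : θ ≤ 1 := by
    refine hθ.trans ((min_le_right _ _).trans (by norm_num))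
  set c : ℕ → ℝ := fun j => 10021 / 10000 * (1 - (j : ℝ) / (3996 * u)) with hc
  have hcn : ∀ j ∈ Ico (1123 * u) (3996 * u), 0 ≤ c j := by
    intro j hj
    have h1 : (j : ℝ) ≤ 3996 * u := by
      have := (Finset.mem_Ico.mp hj).2
      have h2 : j ≤ 3996 * u := this.le
      exact_mod_cast h2
    have h2 : (j : ℝ) / (3996 * u) ≤ 1 := by
      rw [div_le_iff₀ (by positivity)]; linarith
    rw [hc]
    simp only
    have : 0 ≤ 1 - (j : ℝ) / (3996 * u) := by linarith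
    positivity
  set S0 : ℝ := ∑ j ∈ Ico (1123 * u) (3996 * u), c j * (gm j * μ j) with hS0
  have hgm : ∀ j ∈ Ico (1123 * u) (3996 * u), 0 ≤ gm j := by
    intro j hj
    have h1 : 1 ≤ j := by
      have := (Finset.mem_Ico.mp hj).1
      omega
    have h2 : (0 : ℝ) < j := by
      have : 0 < j := by omega
      exact_mod_cast this
    unfold gm
    apply Real.log_nonneg
    rw [le_div_iff₀ h2]
    linarith
  have hS0n : 0 ≤ S0 := Finset.sum_nonneg fun j hj =>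
    mul_nonneg (hcn j hj) (mul_nonneg (hgm j hj) (hμj j hj))
  have hS0e : (10021 / 10000 : ℝ) * ∑ j ∈ Ico (1123 * u) (3996 * u),
      gm j * (1 - (j : ℝ) / (3996 * u)) * μ j = S0 := by
    rw [hS0, Finset.mul_sum]
    refine Finset.sum_congr rfl fun j _ => ?_
    rw [hc]
    ring
  set δ : ℝ := μm - 2 / 1000 * μp - 1001 / 1000 * S0 with hδ
  have hδ0 : 0 < δ := by
    have : (1001 / 1000 : ℝ) * (10021 / 10000) * ∑ j ∈ Ico (1123 * u) (3996 * u),
      gm j * (1 - (j : ℝ) / (3996 * u)) * μ j = 1001 / 1000 * S0 := by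
      rw [← hS0e]; ring
    rw [this] at hpos
    exact hpos
  have hμm : 0 ≤ μm := by
    have : 0 ≤ 2 / 1000 * μp + 1001 / 1000 * S0 := by positivity
    linarith
  -- limits
  have tS : Tendsto (fun a : ℕ => ∑ j ∈ Ico (1123 * u) (3996 * u),
      c j * ((∑ p ∈ bx a ω j, (1 : ℝ) / p) * ms a (Lj j a))) atTop (𝓝 S0) := by
    refine tendsto_finsetSum _ fun j hj => ?_
    refine Tendsto.const_mul _ ?_
    exact (hM ω j hω (by have := (Finset.mem_Ico.mp hj).1; omega)).mul (tj j hj)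
  set ε : ℝ := δ / 6 with hε
  have hε0 : 0 < ε := by positivity
  set Cs : ℝ := 3 + ∑ j ∈ Ico (1123 * u) (3996 * u), c j with hCs
  have hCs0 : 0 < Cs := by
    have := Finset.sum_nonneg hcn
    linarith
  set c1 : ℝ := c0 * δ / 300 with hc1
  have hc10 : 0 < c1 := by positivity
  have hEv : ∀ᶠ a : ℕ in atTop, ∀ b0 : ℕ, b0 < 30 → c1 / 2 * a / Real.log a ^ 3 ≤
    ∑ b ∈ (B1 a θ).filter (fun b => b % 30 = b0),
      q0 a θ b * ind a ω j0 (1123 * u) (a * b + 1) *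
      (1 - ∑ j ∈ Ico (1123 * u) (3996 * u), 10021 / 10000 * (1 - (j : ℝ) / (3996 * u)) *
        (ej a ω j (a * b + 1) : ℝ)) := by
    have hAj : ∀ᶠ a : ℕ in atTop, ∀ j ∈ Ico (1123 * u) (3996 * u), ∀ i b0 : ℕ, b0 < 30 →
      |∑ b ∈ (B1 a θ).filter (fun b => b % 30 = b0),
        th i a θ f b * ((ej a ω j (a * b + 1) : ℝ) * ∑ q ∈ (a * b + 1).divisors, Lj j a q) -
        ((Bb a).card : ℝ) / 30 * TH i a θ f *
          ((∑ p ∈ bx a ω j, (1 : ℝ) / p) * ms a (Lj j a))| ≤ (a : ℝ) ^ (1 - κ) := by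
      rw [Filter.eventually_all_finset]
      intro j hj
      exact hA2 (Tj j) (Bj j) (Lj j) j (Finset.mem_Ico.mp hj).1 (Finset.mem_Ico.mp hj).2
        (wj j hj)
    have hdj : ∀ᶠ a : ℕ in atTop, ∀ j ∈ Ico (1123 * u) (3996 * u), ∀ n : ℕ, 1 ≤ n →
        ind a ω j0 (1123 * u) n ≤ ∑ q ∈ n.divisors, Lj j a q := by
      rw [Filter.eventually_all_finset]
      intro j hj
      exact dj j hj
    filter_upwards [hA1 Tm Bm Lm wm, hA1 Tp Bp Lp wp, hAj, dm, dp, hdj,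
      tS.eventually (eventually_le_nhds (show S0 < S0 + ε by linarith)),
      tm.eventually (eventually_ge_nhds (show μm - ε < μm by linarith)),
      tp.eventually (eventually_le_nhds (show μp < μp + ε by linarith)),
      C10_growth κ Cs (c1 / 2) hκ hCs0 (by positivity), eventually_ge_atTop 20]
      with a hm hp hj' dm' dp' dj' lS lm lp hgr ha20 b0 hb0
    obtain ⟨hth, T1, T2, T3, T4⟩ := h8 a θ (by omega) hθ0
    set V : ℝ := ∏ p ∈ Qs a θ, (1 - ga a p) with hVd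
    have hVa := hV a θ (by omega) hθ0 hθ1
    rw [← hVd] at hVa
    have ha0 : (0 : ℝ) < a := by
      have : 0 < a := by omega
      exact_mod_cast this
    have hlog : 0 < Real.log a := Real.log_pos (by
      have : 1 < a := by omega
      exact_mod_cast this)
    have hV0 : 0 ≤ V := le_trans (by positivity) hVa
    set Fs : Finset ℕ := (B1 a θ).filter (fun b => b % 30 = b0) with hFs
    set X : ℝ := ((Bb a).card : ℝ) / 30 with hX
    have hX0 : 0 ≤ X := by positivity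
    have hXa : (a : ℝ) / 150 ≤ X := by
      have := Bb_card_ge a ha20
      rw [hX]; linarith
    -- pointwise inequality
    have hpt : ∀ b ∈ Fs,
        th 0 a θ f b * (∑ q ∈ (a * b + 1).divisors, Lm a q) +
          th 1 a θ f b * (∑ q ∈ (a * b + 1).divisors, Lp a q) -
          th 0 a θ f b * (∑ q ∈ (a * b + 1).divisors, Lp a q) -
          ∑ j ∈ Ico (1123 * u) (3996 * u), c j * (th 0 a θ f b *
            ((ej a ω j (a * b + 1) : ℝ) * ∑ q ∈ (a * b + 1).divisors, Lj j a q)) ≤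
        q0 a θ b * ind a ω j0 (1123 * u) (a * b + 1) *
          (1 - ∑ j ∈ Ico (1123 * u) (3996 * u), 10021 / 10000 * (1 - (j : ℝ) / (3996 * u)) *
            (ej a ω j (a * b + 1) : ℝ)) := by
      intro b _
      have hi0 : 0 ≤ ind a ω j0 (1123 * u) (a * b + 1) ∧
          ind a ω j0 (1123 * u) (a * b + 1) ≤ 1 := by
        unfold ind; split_ifs <;> norm_num
      have hq : 0 ≤ q0 a θ b ∧ q0 a θ b ≤ 1 := by
        unfold q0; split_ifs <;> norm_num
      refine h9 (q0 a θ b) (ind a ω j0 (1123 * u) (a * b + 1)) (th 0 a θ f b) (th 1 a θ f b)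
        (∑ q ∈ (a * b + 1).divisors, Lp a q) (∑ q ∈ (a * b + 1).divisors, Lm a q)
        (Ico (1123 * u) (3996 * u)) (fun j => (ej a ω j (a * b + 1) : ℝ))
        (fun j => (ej a ω j (a * b + 1) : ℝ) * ∑ q ∈ (a * b + 1).divisors, Lj j a q) c
        hq.1 hq.2 hi0.1 hi0.2 (hth b).1 (hth b).2 (dm' _ (by omega)) (dp' _ (by omega))
        (fun j hj => ⟨hcn j hj, Nat.cast_nonneg _⟩) (fun j hj => ?_)
      rw [mul_comm]
      exact mul_le_mul_of_nonneg_left (dj' j hj _ (by omega)) (Nat.cast_nonneg _)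
    refine le_trans ?_ (Finset.sum_le_sum hpt)
    rw [Finset.sum_sub_distrib, Finset.sum_sub_distrib, Finset.sum_add_distrib,
      Finset.sum_comm]
    have e0 := abs_le.mp (hm 0 b0 hb0)
    have e1 := abs_le.mp (hp 1 b0 hb0)
    have e2 := abs_le.mp (hp 0 b0 hb0)
    have e3 : ∑ j ∈ Ico (1123 * u) (3996 * u), ∑ b ∈ Fs, c j * (th 0 a θ f b *
        ((ej a ω j (a * b + 1) : ℝ) * ∑ q ∈ (a * b + 1).divisors, Lj j a q)) ≤
        X * TH 0 a θ f * (∑ j ∈ Ico (1123 * u) (3996 * u),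
          c j * ((∑ p ∈ bx a ω j, (1 : ℝ) / p) * ms a (Lj j a))) +
        (∑ j ∈ Ico (1123 * u) (3996 * u), c j) * (a : ℝ) ^ (1 - κ) := by
      rw [Finset.mul_sum, Finset.sum_mul, ← Finset.sum_add_distrib]
      refine Finset.sum_le_sum fun j hj => ?_
      rw [← Finset.mul_sum]
      have h := (abs_le.mp (hj' j hj 0 b0 hb0)).2
      have h' := mul_le_mul_of_nonneg_left h (hcn j hj)
      rw [← hFs] at h'
      have e4 : c j * (∑ b ∈ Fs, th 0 a θ f b * ((ej a ω j (a * b + 1) : ℝ) *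
          ∑ q ∈ (a * b + 1).divisors, Lj j a q) - ((Bb a).card : ℝ) / 30 * TH 0 a θ f *
          ((∑ p ∈ bx a ω j, (1 : ℝ) / p) * ms a (Lj j a))) =
          c j * (∑ b ∈ Fs, th 0 a θ f b * ((ej a ω j (a * b + 1) : ℝ) *
          ∑ q ∈ (a * b + 1).divisors, Lj j a q)) - X * TH 0 a θ f *
          (c j * ((∑ p ∈ bx a ω j, (1 : ℝ) / p) * ms a (Lj j a))) := by
        rw [hX]; ring
      rw [e4] at h'
      linarith
    -- main term
    have main := C10_main V _ _ μm μp S0 ε δ _ _ _ hV0 T1 T2 T3 T4 hμm hμp hS0n hε0 hε hδ lm lp lS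
    have main2 := mul_le_mul_of_nonneg_left main hX0
    have main3 : c1 * a / Real.log a ^ 3 ≤ X * (V * (δ / 2)) := by
      calc c1 * a / Real.log a ^ 3 = (a : ℝ) / 150 * (c0 / Real.log a ^ 3 * (δ / 2)) := by
            rw [hc1]; ring
        _ ≤ X * (V * (δ / 2)) := by gcongr
    exact C10_fin X _ _ _ _ _ _ _ _ _ _ _ Cs _ _ _ e0.1 e1.1 e2.2 e3 hCs hgr
      (main3.trans main2) (by ring)
  obtain ⟨a₀, ha₀⟩ := eventually_atTop.mp hEv
  exact ⟨u, j0, hu, hj0, hj1, c1 / 2, by positivity, a₀, fun a b0 ha hb0 => ha₀ a ha b0 hb0⟩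

end Pool.Agent.Helper74.TW
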