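import Pool.Agent.Helper9.TW.St

/-!
# Project TW, module C6 : the main term of a decomposition
-/

set_option autoImplicit false

namespace Pool.Agent.Helper74.TW

open Finset
open Pool.Agent.Helper9.TW

theorem cc_sum (f g : ℕ → ℝ) (X Y K : ℕ) (hf : ∀ m, f m ≠ 0 → m ≤ X) (hg : ∀ n, g n ≠ 0 → n ≤ Y)
    (hXY : X * Y ≤ K) : ∑ q ∈ range (K + 1), cc f g q / q =
      ∑ x ∈ (Icc 1 X ×ˢ Icc 1 Y).filter (fun x => Nat.Coprime x.1 x.2),
        f x.1 * g x.2 / (x.1 * x.2) := by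
  rw [← Finset.sum_fiberwise_of_maps_to (s := (Icc 1 X ×ˢ Icc 1 Y).filter
    (fun x => Nat.Coprime x.1 x.2)) (t := range (K + 1)) (g := fun x => x.1 * x.2)]
  · refine Finset.sum_congr rfl fun q hq => ?_
    unfold cc
    rw [Finset.sum_div]
    symm
    refine Finset.sum_subset_zero_on_sdiff ?_ ?_ ?_
    · intro x hx
      simp only [mem_filter, mem_product, mem_Icc] at hx
      obtain ⟨⟨⟨⟨h1, h2⟩, h3, h4⟩, h5⟩, h6⟩ := hx
      rw [mem_filter, Nat.mem_divisorsAntidiagonal]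
      refine ⟨⟨h6, ?_⟩, h5⟩
      rw [← h6]
      have := Nat.mul_pos (show 0 < x.1 by omega) (show 0 < x.2 by omega)
      omega
    · intro x hx
      rw [mem_sdiff, mem_filter, Nat.mem_divisorsAntidiagonal] at hx
      obtain ⟨⟨⟨h1, h2⟩, h3⟩, h4⟩ := hx
      by_contra hne
      apply h4
      have n1 : f x.1 ≠ 0 := fun h => hne (by rw [h]; simp)
      have n2 : g x.2 ≠ 0 := fun h => hne (by rw [h]; simp)
      have p1 : x.1 ≠ 0 := fun h => h2 (by rw [← h1, h]; simp)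
      have p2 : x.2 ≠ 0 := fun h => h2 (by rw [← h1, h]; simp)
      simp only [mem_filter, mem_product, mem_Icc]
      exact ⟨⟨⟨⟨by omega, hf _ n1⟩, by omega, hg _ n2⟩, h3⟩, h1⟩
    · intro x hx
      have h6 := (mem_filter.mp hx).2
      rw [← h6]
      push_cast
      rfl
  · intro x hx
    simp only [mem_filter, mem_product, mem_Icc] at hx
    obtain ⟨⟨⟨h1, h2⟩, h3, h4⟩, h5⟩ := hx
    rw [mem_range]
    have := Nat.mul_le_mul h2 h4
    omega

theorem mult_sum (X p : ℕ) (hp : 1 ≤ p) (L : ℝ) (hL : 1 + Real.log X ≤ L) (hX : 1 ≤ X) :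
    ∑ m ∈ Icc 1 X, (if p ∣ m then (1 : ℝ) / m else 0) ≤ 1 / p * L := by
  have hp' : (0 : ℝ) < p := by exact_mod_cast hp
  rw [← Finset.sum_filter]
  have e : (Icc 1 X).filter (fun m => p ∣ m) ⊆ (Icc 1 X).image (fun m => p * m) := by
    intro m hm
    rw [mem_filter, mem_Icc] at hm
    obtain ⟨⟨h1, h2⟩, d, rfl⟩ := hm
    rw [mem_image]
    refine ⟨d, ?_, rfl⟩
    rw [mem_Icc]
    refine ⟨?_, ?_⟩
    · rcases Nat.eq_zero_or_pos d with h | h
      · rw [h] at h1; simp at h1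
      · exact h
    · calc d = 1 * d := (one_mul d).symm
        _ ≤ p * d := Nat.mul_le_mul_right _ hp
        _ ≤ X := h2
  calc ∑ m ∈ (Icc 1 X).filter (fun m => p ∣ m), (1 : ℝ) / m
      ≤ ∑ m ∈ (Icc 1 X).image (fun m => p * m), (1 : ℝ) / m :=
        Finset.sum_le_sum_of_subset_of_nonneg e fun _ _ _ => by positivity
    _ = ∑ m ∈ Icc 1 X, (1 : ℝ) / ((p * m : ℕ) : ℝ) := by
        rw [Finset.sum_image]
        intro x _ y _ hxy
        exact Nat.eq_of_mul_eq_mul_left (by omega) hxy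
    _ = 1 / p * ∑ m ∈ Icc 1 X, (1 : ℝ) / m := by
        rw [Finset.mul_sum]
        refine Finset.sum_congr rfl fun m _ => ?_
        push_cast
        rw [one_div_mul_one_div]
    _ ≤ 1 / p * L := by
        have h : (∑ m ∈ Icc 1 X, (1 : ℝ) / m) = ((harmonic X : ℚ) : ℝ) := by
          rw [harmonic_eq_sum_Icc]
          push_cast
          refine Finset.sum_congr rfl fun m _ => ?_
          rw [one_div]
        rw [h]
        have := harmonic_le_one_add_log X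
        exact mul_le_mul_of_nonneg_left (this.trans hL) (by positivity)

theorem noncop (a X Y : ℕ) (z B L : ℝ) (f g : ℕ → ℝ) (hz : 1 ≤ z) (hX : 1 ≤ X) (hY : 1 ≤ Y)
    (hfB : ∀ m, |f m| ≤ B) (hgB : ∀ m, |g m| ≤ B) (hf : ∀ m, f m ≠ 0 → Rg a z m)
    (hLX : 1 + Real.log X ≤ L) (hLY : 1 + Real.log Y ≤ L) :
    |∑ x ∈ (Icc 1 X ×ˢ Icc 1 Y).filter (fun x => ¬ Nat.Coprime x.1 x.2),
        f x.1 * g x.2 / (x.1 * x.2)| ≤ B ^ 2 * (2 / z) * L ^ 2 := by
  have hB : 0 ≤ B := (abs_nonneg _).trans (hfB 0)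
  have hL : 0 ≤ L := by
    have : 0 ≤ Real.log X := Real.log_natCast_nonneg X
    linarith
  obtain ⟨k, hk⟩ : ∃ k : ℕ, k + 1 = ⌈z⌉₊ := ⟨⌈z⌉₊ - 1, by
    have : 0 < ⌈z⌉₊ := Nat.ceil_pos.mpr (by linarith)
    omega⟩
  refine (Finset.abs_sum_le_sum_abs _ _).trans ?_
  have hpt : ∀ x ∈ (Icc 1 X ×ˢ Icc 1 Y).filter (fun x => ¬ Nat.Coprime x.1 x.2),
      |f x.1 * g x.2 / ((x.1 : ℝ) * x.2)| ≤ ∑ p ∈ Ioo k (X + 1),
        B ^ 2 * ((if p ∣ x.1 then (1 : ℝ) / x.1 else 0) * (if p ∣ x.2 then (1 : ℝ) / x.2 else 0)) := by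
    intro x hx
    simp only [mem_filter, mem_product, mem_Icc] at hx
    obtain ⟨⟨⟨h1, h2⟩, h3, h4⟩, h5⟩ := hx
    by_cases h0 : f x.1 = 0
    · rw [h0]; simp only [zero_mul, zero_div, abs_zero]
      refine Finset.sum_nonneg fun p _ => ?_
      have : ∀ y : ℕ, (0 : ℝ) ≤ (if p ∣ y then (1 : ℝ) / y else 0) := by
        intro y; split_ifs <;> positivity
      exact mul_nonneg (by positivity) (mul_nonneg (this _) (this _))
    · have hp : (Nat.gcd x.1 x.2).minFac.Prime := Nat.minFac_prime h5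
      have hd := Nat.minFac_dvd (Nat.gcd x.1 x.2)
      set p := (Nat.gcd x.1 x.2).minFac with hpd
      have d1 : p ∣ x.1 := hd.trans (Nat.gcd_dvd_left _ _)
      have d2 : p ∣ x.2 := hd.trans (Nat.gcd_dvd_right _ _)
      have hzp := ((hf _ h0).2 p hp d1).1
      have hmem : p ∈ Ioo k (X + 1) := by
        rw [mem_Ioo]
        have h6 : ⌈z⌉₊ ≤ p := Nat.ceil_le.mpr hzp
        have h7 := Nat.le_of_dvd (by omega) d1
        omega
      refine le_trans ?_ (Finset.single_le_sum (f := fun p => B ^ 2 *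
        ((if p ∣ x.1 then (1 : ℝ) / x.1 else 0) * (if p ∣ x.2 then (1 : ℝ) / x.2 else 0)))
        (fun p _ => ?_) hmem)
      · simp only [d1, d2, if_true]
        rw [abs_div, abs_mul, abs_of_nonneg (show (0 : ℝ) ≤ (x.1 : ℝ) * x.2 by positivity),
          one_div_mul_one_div, mul_one_div, sq]
        exact div_le_div_of_nonneg_right (mul_le_mul (hfB _) (hgB _) (abs_nonneg _) hB)
          (by positivity)
      · have : ∀ y : ℕ, (0 : ℝ) ≤ (if p ∣ y then (1 : ℝ) / y else 0) := by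
          intro y; split_ifs <;> positivity
        exact mul_nonneg (by positivity) (mul_nonneg (this _) (this _))
  refine (Finset.sum_le_sum hpt).trans ?_
  calc _ ≤ ∑ x ∈ Icc 1 X ×ˢ Icc 1 Y, ∑ p ∈ Ioo k (X + 1), B ^ 2 *
        ((if p ∣ x.1 then (1 : ℝ) / x.1 else 0) * (if p ∣ x.2 then (1 : ℝ) / x.2 else 0)) := by
        refine Finset.sum_le_sum_of_subset_of_nonneg (filter_subset _ _) fun x _ _ => ?_
        refine Finset.sum_nonneg fun p _ => ?_
        have : ∀ y : ℕ, (0 : ℝ) ≤ (if p ∣ y then (1 : ℝ) / y else 0) := by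
          intro y; split_ifs <;> positivity
        exact mul_nonneg (by positivity) (mul_nonneg (this _) (this _))
    _ = ∑ p ∈ Ioo k (X + 1), B ^ 2 * ((∑ m ∈ Icc 1 X, (if p ∣ m then (1 : ℝ) / m else 0)) *
          ∑ n ∈ Icc 1 Y, (if p ∣ n then (1 : ℝ) / n else 0)) := by
        rw [Finset.sum_comm]
        refine Finset.sum_congr rfl fun p _ => ?_
        rw [← Finset.mul_sum, Finset.sum_mul_sum, Finset.sum_product]
    _ ≤ ∑ p ∈ Ioo k (X + 1), B ^ 2 * ((1 / p * L) * (1 / p * L)) := by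
        refine Finset.sum_le_sum fun p hp => ?_
        have hp1 : 1 ≤ p := by
          have := (mem_Ioo.mp hp).1
          omega
        refine mul_le_mul_of_nonneg_left ?_ (by positivity)
        refine mul_le_mul (mult_sum X p hp1 L hLX hX) (mult_sum Y p hp1 L hLY hY) ?_ (by positivity)
        refine Finset.sum_nonneg fun n _ => ?_
        split_ifs <;> positivity
    _ = B ^ 2 * L ^ 2 * ∑ p ∈ Ioo k (X + 1), ((p : ℝ) ^ 2)⁻¹ := by
        rw [Finset.mul_sum]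
        refine Finset.sum_congr rfl fun p _ => ?_
        rw [← one_div, sq (p : ℝ), ← one_div_mul_one_div]
        ring
    _ ≤ B ^ 2 * L ^ 2 * (2 / z) := by
        have h1 := sum_Ioo_inv_sq_le (α := ℝ) k (X + 1)
        have h2 : (2 : ℝ) / (k + 1) ≤ 2 / z := by
          have h3 : z ≤ (k : ℝ) + 1 := by
            have := Nat.le_ceil z
            rw [← hk] at this
            push_cast at this
            exact this
          exact div_le_div_of_nonneg_left (by norm_num) (by linarith) h3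
        exact mul_le_mul_of_nonneg_left (h1.trans h2) (by positivity)
    _ = B ^ 2 * (2 / z) * L ^ 2 := by ring

theorem hC6 : StC6 := by
  intro a T z M N B l al be ha hz hM hN hMN hB hal hbe hl
  have hX : 1 ≤ ⌊M⌋₊ := Nat.le_floor (by exact_mod_cast hM)
  have hY : 1 ≤ ⌊N⌋₊ := Nat.le_floor (by exact_mod_cast hN)
  have hfM : (⌊M⌋₊ : ℝ) ≤ M := Nat.floor_le (by linarith)
  have hfN : (⌊N⌋₊ : ℝ) ≤ N := Nat.floor_le (by linarith)
  have ha0 : (0 : ℝ) < a := by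
    have : 0 < a := by omega
    exact_mod_cast this
  have hXY : ⌊M⌋₊ * ⌊N⌋₊ ≤ a ^ 2 := by
    have : ((⌊M⌋₊ * ⌊N⌋₊ : ℕ) : ℝ) ≤ ((a ^ 2 : ℕ) : ℝ) := by
      push_cast
      exact (mul_le_mul hfM hfN (by positivity) (by linarith)).trans hMN
    exact_mod_cast this
  have hlog : ∀ Z : ℝ, 1 ≤ Z → Z ≤ (a : ℝ) ^ 2 → 1 + Real.log Z ≤ 1 + 2 * Real.log a := by
    intro Z h1 h2
    have := Real.log_le_log (by linarith) h2
    rw [Real.log_pow] at this
    push_cast at this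
    linarith
  have hMa : (⌊M⌋₊ : ℝ) ≤ (a : ℝ) ^ 2 := by nlinarith
  have hNa : (⌊N⌋₊ : ℝ) ≤ (a : ℝ) ^ 2 := by nlinarith
  have key : ms a l - ∑ t ∈ range T, ∑ m ∈ Icc 1 ⌊M⌋₊, ∑ n ∈ Icc 1 ⌊N⌋₊,
      al t m * be t n / (m * n) = - ∑ t ∈ range T,
        ∑ x ∈ (Icc 1 ⌊M⌋₊ ×ˢ Icc 1 ⌊N⌋₊).filter (fun x => ¬ Nat.Coprime x.1 x.2),
          al t x.1 * be t x.2 / (x.1 * x.2) := by
    have e1 : ms a l = ∑ t ∈ range T,
        ∑ x ∈ (Icc 1 ⌊M⌋₊ ×ˢ Icc 1 ⌊N⌋₊).filter (fun x => Nat.Coprime x.1 x.2),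
          al t x.1 * be t x.2 / (x.1 * x.2) := by
      unfold ms
      calc ∑ q ∈ range (a ^ 2 + 1), l q / (q : ℝ)
          = ∑ q ∈ range (a ^ 2 + 1), ∑ t ∈ range T, cc (al t) (be t) q / (q : ℝ) := by
            refine Finset.sum_congr rfl fun q _ => ?_
            rw [hl q, Finset.sum_div]
        _ = ∑ t ∈ range T, ∑ q ∈ range (a ^ 2 + 1), cc (al t) (be t) q / (q : ℝ) :=
            Finset.sum_comm
        _ = _ := by
            refine Finset.sum_congr rfl fun t _ => ?_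
            exact cc_sum (al t) (be t) ⌊M⌋₊ ⌊N⌋₊ (a ^ 2)
              (fun m hm => Nat.le_floor (hal t m hm).2) (fun m hm => Nat.le_floor (hbe t m hm).2)
              hXY
    rw [e1, ← Finset.sum_sub_distrib, ← Finset.sum_neg_distrib]
    refine Finset.sum_congr rfl fun t _ => ?_
    have e2 : ∑ m ∈ Icc 1 ⌊M⌋₊, ∑ n ∈ Icc 1 ⌊N⌋₊, al t m * be t n / ((m : ℝ) * n) =
        ∑ x ∈ Icc 1 ⌊M⌋₊ ×ˢ Icc 1 ⌊N⌋₊, al t x.1 * be t x.2 / ((x.1 : ℝ) * x.2) := by
      rw [Finset.sum_product]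
    rw [e2, ← Finset.sum_filter_add_sum_filter_not (Icc 1 ⌊M⌋₊ ×ˢ Icc 1 ⌊N⌋₊)
      (fun x => Nat.Coprime x.1 x.2)]
    ring
  rw [key, abs_neg]
  calc _ ≤ ∑ t ∈ range T, |∑ x ∈ (Icc 1 ⌊M⌋₊ ×ˢ Icc 1 ⌊N⌋₊).filter
        (fun x => ¬ Nat.Coprime x.1 x.2), al t x.1 * be t x.2 / ((x.1 : ℝ) * x.2)| :=
        Finset.abs_sum_le_sum_abs _ _
    _ ≤ ∑ t ∈ range T, B ^ 2 * (2 / z) * (1 + 2 * Real.log a) ^ 2 := by
        refine Finset.sum_le_sum fun t _ => ?_
        exact noncop a _ _ z B _ (al t) (be t) hz hX hY (fun m => (hB t m).1)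
          (fun m => (hB t m).2) (fun m hm => (hal t m hm).1)
          (hlog _ (by exact_mod_cast hX) hMa) (hlog _ (by exact_mod_cast hY) hNa)
    _ = T * B ^ 2 * (2 / z) * (1 + 2 * Real.log a) ^ 2 := by
        rw [Finset.sum_const, card_range, nsmul_eq_mul]; ring

end Pool.Agent.Helper74.TW
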