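import Pool.Agent.Helper9.TW.St

/-!
# Project TW, module D4 : the deterministic recursion for small `s`
-/

set_option autoImplicit false

namespace Pool.Agent.Helper74.TW

open Pool.Agent.Helper9.TW

/-- climbing with the rule `uk` -/
theorem climb (j0 Nm N : ℕ) (U L : ℕ → ℕ → ℝ → Prop) (hA : Ax j0 Nm U L) (hN : N ≤ Nm) (μ : ℝ)
    (j₁ : ℕ) (h1 : j0 ≤ j₁) (hU : U N j₁ μ) : ∀ j : ℕ, j₁ ≤ j → U N j μ := by
  intro j hj
  induction j, hj using Nat.le_induction with
  | base => exact hU
  | succ n hn ih => exact hA.uk N n μ (h1.trans hn) hN ih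

theorem hD4 : StD4 := by
  intro S c hc hG
  refine ⟨?_, ?_⟩
  · intro s hs hs3 η hη
    set η' : ℝ := min η (η * s / 6) with hη'
    have hη'0 : 0 < η' := lt_min hη (by positivity)
    have hη'1 : η' ≤ η := min_le_left _ _
    have hη'2 : η' ≤ η * s / 6 := min_le_right _ _
    obtain ⟨js, hjs⟩ := hG η' hη'0
    obtain ⟨n0, hn0⟩ := exists_nat_ge (4 * (c + η') / (s * η))
    refine ⟨max (max js 1) n0, fun j0 h0 U L hA j N hj hN hsN => ?_⟩
    have k1 : js ≤ j0 := le_trans (le_trans (le_max_left _ _) (le_max_left _ _)) h0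
    have k2 : 1 ≤ j0 := le_trans (le_trans (le_max_right _ _) (le_max_left _ _)) h0
    have k3 : 4 * (c + η') / (s * η) ≤ j0 := hn0.trans (by
      exact_mod_cast le_trans (le_max_right _ _) h0)
    have hj0 : (0 : ℝ) < j0 := by
      have : 0 < j0 := by omega
      exact_mod_cast this
    have hjp : (0 : ℝ) < j := by
      have : 0 < j := by omega
      exact_mod_cast this
    rw [div_le_iff₀ (by positivity)] at k3
    by_cases h3 : 3 * j ≤ N
    · obtain ⟨μ, hμ, hμ'⟩ := hjs j0 k1 U L hA j N hj hN (by exact_mod_cast h3)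
      refine ⟨μ, hμ, hμ'.trans (mul_le_mul_of_nonneg_left ?_ (by positivity))⟩
      have : c ≤ 3 * c / s := by
        rw [le_div_iff₀ hs]; nlinarith
      linarith
    · by_cases hj1 : j0 ≤ N / 3
      · obtain ⟨μ, hμ, hμ'⟩ := hjs j0 k1 U L hA (N / 3) N hj1 hN (by
          have : 3 * (N / 3) ≤ N := Nat.mul_div_le _ _
          exact_mod_cast this)
        refine ⟨μ, climb j0 _ N U L hA hN μ _ hj1 hμ j (by omega), hμ'.trans ?_⟩
        set j₁ : ℕ := N / 3 with hj₁
        have hj1p : (0 : ℝ) < j₁ := by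
          have : 0 < j₁ := by omega
          exact_mod_cast this
        have hN3 : (N : ℝ) ≤ 3 * j₁ + 2 := by
          have : N ≤ 3 * j₁ + 2 := by omega
          exact_mod_cast this
        have hj01 : (j0 : ℝ) ≤ j₁ := by exact_mod_cast hj1
        rw [div_mul_eq_mul_div, div_mul_eq_mul_div, div_le_div_iff₀ hj1p hjp]
        have key : (c + η') * j ≤ (3 * c / s + η) * j₁ := by
          have e1 : s * ((c + η') * j) ≤ (c + η') * (3 * j₁ + 2) := by
            calc s * ((c + η') * j) = (c + η') * (s * j) := by ring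
              _ ≤ (c + η') * (3 * j₁ + 2) := by
                apply mul_le_mul_of_nonneg_left (hsN.trans hN3) (by positivity)
          have e2 : (c + η') * (3 * j₁ + 2) ≤ s * ((3 * c / s + η) * j₁) := by
            have e3 : s * ((3 * c / s + η) * j₁) = 3 * c * j₁ + s * η * j₁ := by
              field_simp
            rw [e3]
            have e4 : 4 * (c + η') ≤ s * η * j₁ := by
              have : s * η * j0 ≤ s * η * j₁ := by gcongr
              linarith
            have e5 : 3 * η' * j₁ ≤ s * η * j₁ / 2 := by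
              have : 3 * η' ≤ s * η / 2 := by linarith
              nlinarith
            nlinarith
          have := e1.trans e2
          exact le_of_mul_le_mul_left this hs
        calc (j0 : ℝ) * (c + η') * j = j0 * ((c + η') * j) := by ring
          _ ≤ j0 * ((3 * c / s + η) * j₁) := by gcongr
          _ = _ := by ring
      · refine ⟨1, climb j0 _ N U L hA hN 1 j0 le_rfl (hA.u0 N hN) j hj, ?_⟩
        have hN3 : (N : ℝ) ≤ 3 * j0 := by
          have : N ≤ 3 * j0 := by omega
          exact_mod_cast this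
        rw [div_mul_eq_mul_div, le_div_iff₀ hjp, one_mul]
        have e1 : s * j ≤ s * ((j0 : ℝ) * (3 * c / s + η)) := by
          have e3 : s * ((j0 : ℝ) * (3 * c / s + η)) = 3 * c * j0 + s * η * j0 := by
            field_simp
          rw [e3]
          have : (0 : ℝ) ≤ s * η * j0 := by positivity
          nlinarith
        exact le_of_mul_le_mul_left e1 hs
  · intro η hη
    obtain ⟨js, hjs⟩ := hG (η / 2) (by positivity)
    obtain ⟨n0, hn0⟩ := exists_nat_ge (4 * (c + η / 2) / (3 * η))
    refine ⟨max (max js 1) n0, fun j0 h0 U L hA j N hj h3j hN hN3j => ?_⟩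
    have k1 : js ≤ j0 := le_trans (le_trans (le_max_left _ _) (le_max_left _ _)) h0
    have k2 : 1 ≤ j0 := le_trans (le_trans (le_max_right _ _) (le_max_left _ _)) h0
    have k3 : 4 * (c + η / 2) / (3 * η) ≤ j0 := hn0.trans (by
      exact_mod_cast le_trans (le_max_right _ _) h0)
    have hj0 : (0 : ℝ) < j0 := by
      have : 0 < j0 := by omega
      exact_mod_cast this
    rw [div_le_iff₀ (by positivity)] at k3
    have hj1 : j0 ≤ N / 3 := by omega
    obtain ⟨μ, hμ, hμ'⟩ := hjs j0 k1 U L hA (N / 3) N hj1 hN (by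
      have : 3 * (N / 3) ≤ N := Nat.mul_div_le _ _
      exact_mod_cast this)
    refine ⟨μ, climb j0 _ N U L hA hN μ _ hj1 hμ j (by omega), ?_⟩
    set j₁ : ℕ := N / 3 with hj₁
    have hj1p : (0 : ℝ) < j₁ := by
      have : 0 < j₁ := by omega
      exact_mod_cast this
    have hN3 : (N : ℝ) ≤ 3 * j₁ + 2 := by
      have : N ≤ 3 * j₁ + 2 := by omega
      exact_mod_cast this
    have hj01 : (j0 : ℝ) / j₁ ≤ 1 := by
      rw [div_le_iff₀ hj1p, one_mul]; exact_mod_cast hj1
    calc μ * N ≤ (j0 : ℝ) / j₁ * (c + η / 2) * N :=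
          mul_le_mul_of_nonneg_right hμ' (Nat.cast_nonneg _)
      _ ≤ (j0 : ℝ) / j₁ * (c + η / 2) * (3 * j₁ + 2) := by gcongr
      _ = 3 * j0 * (c + η / 2) + 2 * ((j0 : ℝ) / j₁ * (c + η / 2)) := by
          field_simp
      _ ≤ 3 * j0 * (c + η / 2) + 2 * (1 * (c + η / 2)) := by gcongr
      _ ≤ 3 * j0 * (c + η) := by nlinarith

end Pool.Agent.Helper74.TW
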